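import Mathlib
import Pool.Agent.H870R4.Noz.Stmts

set_option autoImplicit false

open MeasureTheory Set
open scoped ContDiff

namespace Pool.Agent.H827R3.Noz

open H870N

theorem isOpen_crect (L R h : ℝ) : IsOpen (crect L R h) := by
  have h1 : IsOpen {w : ℂ | L < w.re} := isOpen_lt continuous_const Complex.continuous_re
  have h2 : IsOpen {w : ℂ | w.re < R} := isOpen_lt Complex.continuous_re continuous_const
  have h3 : IsOpen {w : ℂ | |w.im| < h} :=
    isOpen_lt (continuous_abs.comp Complex.continuous_im) continuous_const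
  exact h1.inter (h2.inter h3)

theorem norm_Bp (s : ℂ) (hs : s ≠ 0) : ‖Bp s‖ = Real.exp (-Complex.arg s) / ‖s‖ := by
  unfold Bp
  rw [norm_mul, Complex.norm_I, one_mul, Complex.norm_exp]
  have h1 : ((Complex.I - 1) * Complex.log s).re = -Real.log ‖s‖ + -Complex.arg s := by
    simp [Complex.log_re, Complex.log_im]
    ring
  have hp : 0 < ‖s‖ := norm_pos_iff.2 hs
  rw [h1, Real.exp_add, Real.exp_neg, Real.exp_log hp]
  field_simp

theorem norm_Bp_lt (s : ℂ) (hs : s ∈ crect (1 / 35) 560 (1 / 150)) : ‖Bp s‖ < 1000 := by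
  obtain ⟨h1, h2, h3⟩ := hs
  have hre : 0 < s.re := lt_trans (by norm_num) h1
  have hne : s ≠ 0 := by
    rintro rfl
    simp at hre
  rw [norm_Bp s hne]
  have hn : 1 / 35 < ‖s‖ := lt_of_lt_of_le h1 (Complex.re_le_norm s)
  have harg : |Complex.arg s| ≤ Real.pi / 2 := Complex.abs_arg_le_pi_div_two_iff.2 hre.le
  have h4 : -Complex.arg s ≤ 2 := by
    have := (abs_le.1 harg).1
    have h5 := Real.pi_lt_four
    linarith
  have h5 : Real.exp (-Complex.arg s) ≤ Real.exp 2 := Real.exp_le_exp.2 h4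
  have h6 : Real.exp 2 < 9 := by
    have := Real.exp_one_lt_d9
    have h7 : Real.exp 2 = Real.exp 1 * Real.exp 1 := by
      rw [← Real.exp_add]; norm_num
    rw [h7]
    nlinarith [Real.exp_pos 1]
  rw [div_lt_iff₀ (by linarith)]
  nlinarith

theorem taskSm : TaskSm := by
  intro δ σ hδ hδ' hσ
  set O := crect (1 / 32) 550 (1 / 180) with hO
  have hopen : IsOpen O := isOpen_crect _ _ _
  have hdiff : DifferentiableOn ℂ σ O := fun w hw =>
    ((hσ w hw).2.2.2.2).differentiableAt.differentiableWithinAt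
  have hσC : ContDiffOn ℂ ∞ σ O := hdiff.contDiffOn hopen
  have hmem : ∀ w ∈ O, σ w ∈ Complex.slitPlane := by
    intro w hw
    left
    have h1 := (hσ w hw).1.1
    exact lt_trans (by norm_num) h1
  have hlogC : ContDiffOn ℂ ∞ (fun w => Complex.log (σ w)) O := by
    intro w hw
    exact (Complex.contDiffAt_log (hmem w hw)).comp_contDiffWithinAt w (hσC w hw)
  have hlog : ContDiffOn ℝ ∞ (fun w => Complex.log (σ w)) O := hlogC.restrict_scalars ℝ
  have hBfC : ContDiffOn ℂ ∞ (fun w => Bf (σ w)) O := by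
    unfold Bf
    exact (contDiffOn_const.mul hlogC).cexp
  have hBpC : ContDiffOn ℂ ∞ (fun w => Bp (σ w)) O := by
    unfold Bp
    exact contDiffOn_const.mul (contDiffOn_const.mul hlogC).cexp
  have hBp : ContDiffOn ℝ ∞ (fun w => Bp (σ w)) O := hBpC.restrict_scalars ℝ
  refine ⟨hσC.restrict_scalars ℝ, ?_, hBfC.restrict_scalars ℝ, hBp, ?_⟩
  · have h1 : (fun w => lam (σ w)) = fun w => (Complex.log (σ w)).re - (Complex.log (σ w)).im := by
      funext w
      rw [Complex.log_re, Complex.log_im]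
      rfl
    rw [h1]
    have hre : ContDiffOn ℝ ∞ (fun w => (Complex.log (σ w)).re) O :=
      Complex.reCLM.contDiff.comp_contDiffOn hlog
    have him : ContDiffOn ℝ ∞ (fun w => (Complex.log (σ w)).im) O :=
      Complex.imCLM.contDiff.comp_contDiffOn hlog
    exact hre.sub him
  · have h1 : (fun w => Vm δ (σ w) ^ 2) =
        fun w => ‖1 + δ * Bp (σ w)‖ ^ 2 / ‖1 - δ * Bp (σ w)‖ ^ 2 := by
      funext w
      unfold Vm
      rw [div_pow]
    rw [h1]
    have hn : ContDiffOn ℝ ∞ (fun w => ‖1 + δ * Bp (σ w)‖ ^ 2) O :=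
      (contDiffOn_const.add (contDiffOn_const.mul hBp)).norm_sq ℝ
    have hd : ContDiffOn ℝ ∞ (fun w => ‖1 - δ * Bp (σ w)‖ ^ 2) O :=
      (contDiffOn_const.sub (contDiffOn_const.mul hBp)).norm_sq ℝ
    refine hn.div hd ?_
    intro w hw h0
    have h2 : 1 - δ * Bp (σ w) = 0 := by
      have := pow_eq_zero_iff (two_ne_zero) |>.1 h0
      exact norm_eq_zero.1 this
    have h3 : ‖(δ : ℂ) * Bp (σ w)‖ = 1 := by
      have : (δ : ℂ) * Bp (σ w) = 1 := by linear_combination -h2
      rw [this, norm_one]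
    have h4 := norm_Bp_lt (σ w) (hσ w hw).1
    rw [norm_mul, Complex.norm_real, Real.norm_of_nonneg hδ.le] at h3
    nlinarith [norm_nonneg (Bp (σ w))]

end Pool.Agent.H827R3.Noz
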